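import Pool.Agent.H40.Dol.Defs

/-!
Last part of the core lemma M1 of MP_70580c_co (step (I2) of note 854).
-/

namespace Pool.Agent.H30.Dol

open H40Dol

/-- scalar form of one half of (I2) -/
lemma half (s P1 P2 g d F21 F22 F31 F32 F33 H2 H3 c1 x : ℝ) (hs1 : s < 1) (hs0 : 0 ≤ s)
    (hT3 : 1 ≤ g + d) (hT2 : P1 + P2 < 0)
    (hc1 : 0 < c1) (hx : 0 < x) (hF2 : F22 < F21) (hH2 : F21 - F22 ≤ H2)
    (hH31 : F31 - F33 ≤ H3) (hH32 : F32 - F33 ≤ H3) (hH3 : 0 < H3)
    (t2 : H2 + s * F22 ≤ P1 * F21 + P2 * F22) (w2 : s * F22 ≤ g * F21 + d * F22)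
    (t3 : H3 + s * F33 ≤ g * F31 + d * F32) (w3 : s * F33 ≤ P1 * F31 + P2 * F32)
    (cq2 : P1 * c1 - P2 * x < 0) (cq3 : g * c1 - d * x < 0) :
    (1 - s) * c1 < (2 * s - 1) * x := by
  have hden : 0 < (g + d) - (P1 + P2) := by linarith
  obtain ⟨th, hth⟩ : ∃ th : ℝ, th * ((g + d) - (P1 + P2)) = s - (P1 + P2) :=
    ⟨(s - (P1 + P2)) / ((g + d) - (P1 + P2)), by field_simp⟩
  have hth0 : 0 < th := by
    by_contra hcon
    push Not at hcon
    have : th * ((g + d) - (P1 + P2)) ≤ 0 := mul_nonpos_of_nonpos_of_nonneg hcon hden.le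
    linarith
  have hth1 : th < 1 := by
    by_contra hcon
    push Not at hcon
    have : (g + d) - (P1 + P2) ≤ th * ((g + d) - (P1 + P2)) := by nlinarith
    linarith
  obtain ⟨w1, hw1⟩ : ∃ w1 : ℝ, w1 = (1 - th) * P1 + th * g := ⟨_, rfl⟩
  obtain ⟨v2, hv2⟩ : ∃ v2 : ℝ, v2 = (1 - th) * P2 + th * d := ⟨_, rfl⟩
  have hsum : w1 + v2 = s := by rw [hw1, hv2]; linarith
  -- f2 inequality
  have e2 : s * F22 + (1 - th) * H2 ≤ w1 * F21 + v2 * F22 := by
    have a1 : (1 - th) * (H2 + s * F22) ≤ (1 - th) * (P1 * F21 + P2 * F22) :=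
      mul_le_mul_of_nonneg_left t2 (by linarith)
    have a2 : th * (s * F22) ≤ th * (g * F21 + d * F22) := mul_le_mul_of_nonneg_left w2 hth0.le
    rw [hw1, hv2]; linarith
  have hw1ge : 1 - th ≤ w1 := by
    have h1 : (1 - th) * (F21 - F22) ≤ w1 * (F21 - F22) := by
      have h2 : (1 - th) * (F21 - F22) ≤ (1 - th) * H2 :=
        mul_le_mul_of_nonneg_left hH2 (by linarith)
      have h3 : v2 = s - w1 := by linarith
      rw [h3] at e2
      linarith
    exact le_of_mul_le_mul_right h1 (by linarith)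
  have hw1pos : 0 < w1 := by linarith
  have hcz : w1 * c1 - v2 * x < 0 := by
    have a1 : (1 - th) * (P1 * c1 - P2 * x) < 0 := mul_neg_of_pos_of_neg (by linarith) cq2
    have a2 : th * (g * c1 - d * x) < 0 := mul_neg_of_pos_of_neg hth0 cq3
    rw [hw1, hv2]; linarith
  have hv2pos : 0 < v2 := by
    by_contra hcon
    push Not at hcon
    have h1 : v2 * x ≤ 0 := mul_nonpos_of_nonpos_of_nonneg hcon hx.le
    have h2 : 0 < w1 * c1 := mul_pos hw1pos hc1
    linarith
  have e3 : s * F33 + th * H3 ≤ w1 * F31 + v2 * F32 := by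
    have a1 : (1 - th) * (s * F33) ≤ (1 - th) * (P1 * F31 + P2 * F32) :=
      mul_le_mul_of_nonneg_left w3 (by linarith)
    have a2 : th * (H3 + s * F33) ≤ th * (g * F31 + d * F32) := mul_le_mul_of_nonneg_left t3 hth0.le
    rw [hw1, hv2]; linarith
  have hths : th ≤ s := by
    have b1 : w1 * (F31 - F33) ≤ w1 * H3 := mul_le_mul_of_nonneg_left hH31 hw1pos.le
    have b2 : v2 * (F32 - F33) ≤ v2 * H3 := mul_le_mul_of_nonneg_left hH32 hv2pos.le
    have b3 : th * H3 ≤ s * H3 := by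
      have : w1 * F33 + v2 * F33 = s * F33 := by rw [← hsum]; ring
      have h4 : w1 * H3 + v2 * H3 = s * H3 := by rw [← hsum]; ring
      linarith
    exact le_of_mul_le_mul_right b3 hH3
  have h5 : (1 - s) * c1 ≤ w1 * c1 := mul_le_mul_of_nonneg_right (by linarith) hc1.le
  have h6 : v2 * x ≤ (2 * s - 1) * x := mul_le_mul_of_nonneg_right (by linarith) hx.le
  linarith

/-- `M := max (F1, F2)` is positive and `g + d ≥ 1` -/
lemma sum_ge (A B s g d F1 F2 F3 H : ℝ) (hA : 0 < A) (hB : 0 < B) (hs1 : s < 1)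
    (hg : 0 ≤ g) (hd : 0 ≤ d) (hrel : F1 = -A * F2 - B * F3) (h31 : F3 < F1) (h32 : F3 < F2)
    (hH1 : F1 - F3 ≤ H) (hH2 : F2 - F3 ≤ H) (ht : H + s * F3 ≤ g * F1 + d * F2) :
    1 ≤ g + d := by
  have hF3 : F3 < 0 := by
    by_contra hcon
    push Not at hcon
    have h1 : 0 < A * F2 := mul_pos hA (by linarith)
    have h2 : 0 ≤ B * F3 := mul_nonneg hB.le hcon
    linarith
  obtain ⟨M, hM1, hM2, hMH, hMpos⟩ : ∃ M, F1 ≤ M ∧ F2 ≤ M ∧ M - F3 ≤ H ∧ 0 < M := by
    rcases le_total F1 F2 with h | h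
    · refine ⟨F2, h, le_rfl, hH2, ?_⟩
      by_contra hcon
      push Not at hcon
      have h1 : A * F2 ≤ 0 := mul_nonpos_of_nonneg_of_nonpos hA.le hcon
      have h2 : B * F3 < 0 := mul_neg_of_pos_of_neg hB hF3
      linarith
    · refine ⟨F1, le_rfl, h, hH1, ?_⟩
      by_contra hcon
      push Not at hcon
      have h1 : A * F2 ≤ 0 := mul_nonpos_of_nonneg_of_nonpos hA.le (by linarith)
      have h2 : B * F3 < 0 := mul_neg_of_pos_of_neg hB hF3
      linarith
  have h3 : g * F1 ≤ g * M := mul_le_mul_of_nonneg_left hM1 hg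
  have h4 : d * F2 ≤ d * M := mul_le_mul_of_nonneg_left hM2 hd
  have h5 : (1 - s) * F3 < 0 := mul_neg_of_pos_of_neg (by linarith) hF3
  have h6 : 1 * M ≤ (g + d) * M := by linarith
  exact le_of_mul_le_mul_right h6 hMpos

/-- (I2) of the core lemma -/
theorem m1_end (A B s : ℝ) (hA : 0 < A) (hB : 0 < B) (hs0 : 0 ≤ s) (hs1 : s < 1)
    (H2 H3 : ℝ) (f2 f3 c q2 q3 : ℝ × ℝ)
    (hq2 : ∃ g d : ℝ, 0 ≤ g ∧ 0 ≤ d ∧ q2 = g • ((0 : ℝ), (1 : ℝ)) + d • (-A, -B))
    (hq3 : ∃ g d : ℝ, 0 ≤ g ∧ 0 ≤ d ∧ q3 = g • (-A, -B) + d • ((1 : ℝ), (0 : ℝ)))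
    (hm21 : pr f2 (1, 0) < pr f2 (-A, -B)) (hm23 : pr f2 (1, 0) < pr f2 (0, 1))
    (hm31 : pr f3 (0, 1) < pr f3 (-A, -B)) (hm32 : pr f3 (0, 1) < pr f3 (1, 0))
    (hH21 : pr f2 (-A, -B) - pr f2 (1, 0) ≤ H2) (hH23 : pr f2 (0, 1) - pr f2 (1, 0) ≤ H2)
    (hH31 : pr f3 (-A, -B) - pr f3 (0, 1) ≤ H3) (hH32 : pr f3 (1, 0) - pr f3 (0, 1) ≤ H3)
    (ht2 : H2 + s * pr f2 (1, 0) ≤ pr f2 q2) (ht3 : H3 + s * pr f3 (0, 1) ≤ pr f3 q3)
    (hw2 : s * pr f2 (1, 0) ≤ pr f2 q3) (hw3 : s * pr f3 (0, 1) ≤ pr f3 q2)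
    (hc1 : c.1 < 0) (hc2 : c.2 < 0) (hcq2 : pr c q2 < 0) (hcq3 : pr c q3 < 0) :
    (1 - s) * pr c (-A, -B) < (2 * s - 1) * (-c.1) ∧
      (1 - s) * pr c (-A, -B) < (2 * s - 1) * (-c.2) := by
  obtain ⟨g', d', hg', hd', rfl⟩ := hq2
  obtain ⟨g, d, hg, hd, rfl⟩ := hq3
  obtain ⟨a1, a2⟩ := f2
  obtain ⟨b1, b2⟩ := f3
  obtain ⟨c1, c2⟩ := c
  simp only [pr, Prod.fst_add, Prod.snd_add, Prod.smul_fst, Prod.smul_snd, smul_eq_mul] at *
  have hcA : 0 < c1 * -A + c2 * -B := by nlinarith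
  have hT3 : 1 ≤ g + d := by
    refine sum_ge A B s g d (b1 * -A + b2 * -B) b1 b2 H3 hA hB hs1 hg hd (by ring)
      (by linarith) (by linarith) (by linarith) (by linarith)
      (by
        have e : g * (b1 * -A + b2 * -B) + d * b1
            = b1 * (g * -A + d * 1) + b2 * (g * -B + d * 0) := by ring
        linarith)
  have hT3' : 1 ≤ d' + g' := by
    refine sum_ge B A s d' g' (a1 * -A + a2 * -B) a2 a1 H2 hB hA hs1 hd' hg' (by ring)
      (by linarith) (by linarith) (by linarith) (by linarith)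
      (by
        have e : d' * (a1 * -A + a2 * -B) + g' * a2
            = a1 * (g' * 0 + d' * -A) + a2 * (g' * 1 + d' * -B) := by ring
        linarith)
  -- d' B < g'
  have hk1 : d' * B < g' := by
    have h1 : 0 ≤ d' * (A * (-c1)) := mul_nonneg hd' (mul_nonneg hA.le (by linarith))
    have h2 : (d' * B) * (-c2) < g' * (-c2) := by nlinarith
    exact lt_of_mul_lt_mul_right h2 (by linarith)
  have hk2 : g * A < d := by
    have h1 : 0 ≤ g * (B * (-c2)) := mul_nonneg hg (mul_nonneg hB.le (by linarith))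
    have h2 : (g * A) * (-c1) < d * (-c1) := by nlinarith
    exact lt_of_mul_lt_mul_right h2 (by linarith)
  have hBi : B * (1 / B) = 1 := by field_simp
  have hAi : A * (1 / A) = 1 := by field_simp
  obtain ⟨iB, hiB⟩ : ∃ iB, iB = 1 / B := ⟨_, rfl⟩
  obtain ⟨iA, hiA⟩ : ∃ iA, iA = 1 / A := ⟨_, rfl⟩
  rw [← hiB] at hBi
  rw [← hiA] at hAi
  have hiBpos : 0 < iB := by rw [hiB]; positivity
  have hiApos : 0 < iA := by rw [hiA]; positivity
  constructor
  · have key := half s (d' - g' * iB) (-(g' * A * iB)) g d (a1 * -A + a2 * -B) a1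
      (b1 * -A + b2 * -B) b1 b2 H2 H3 (c1 * -A + c2 * -B) (-c1) hs1 hs0 hT3
      (by
        have h1 : d' * B * iB < g' * iB := mul_lt_mul_of_pos_right hk1 hiBpos
        have h2 : d' * B * iB = d' := by rw [mul_assoc, hBi, mul_one]
        have h3 : 0 ≤ g' * A * iB := by have := hg'; positivity
        linarith)
      hcA (by linarith) (by linarith) (by linarith) (by linarith) (by linarith) (by linarith)
      (by
        have e : (d' - g' * iB) * (a1 * -A + a2 * -B) + -(g' * A * iB) * a1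
            = a1 * (g' * 0 + d' * -A) + a2 * (g' * 1 + d' * -B) := by
          linear_combination (g' * a2) * hBi
        linarith)
      (by
        have e : g * (a1 * -A + a2 * -B) + d * a1
            = a1 * (g * -A + d * 1) + a2 * (g * -B + d * 0) := by ring
        linarith)
      (by
        have e : g * (b1 * -A + b2 * -B) + d * b1
            = b1 * (g * -A + d * 1) + b2 * (g * -B + d * 0) := by ring
        linarith)
      (by
        have e : (d' - g' * iB) * (b1 * -A + b2 * -B) + -(g' * A * iB) * b1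
            = b1 * (g' * 0 + d' * -A) + b2 * (g' * 1 + d' * -B) := by
          linear_combination (g' * b2) * hBi
        linarith)
      (by
        have e : (d' - g' * iB) * (c1 * -A + c2 * -B) - -(g' * A * iB) * (-c1)
            = c1 * (g' * 0 + d' * -A) + c2 * (g' * 1 + d' * -B) := by
          linear_combination (g' * c2) * hBi
        linarith)
      (by
        have e : g * (c1 * -A + c2 * -B) - d * (-c1)
            = c1 * (g * -A + d * 1) + c2 * (g * -B + d * 0) := by ring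
        linarith)
    linarith
  · have key := half s (g - d * iA) (-(d * B * iA)) d' g' (b1 * -A + b2 * -B) b2
      (a1 * -A + a2 * -B) a2 a1 H3 H2 (c1 * -A + c2 * -B) (-c2) hs1 hs0 hT3'
      (by
        have h1 : g * A * iA < d * iA := mul_lt_mul_of_pos_right hk2 hiApos
        have h2 : g * A * iA = g := by rw [mul_assoc, hAi, mul_one]
        have h3 : 0 ≤ d * B * iA := by have := hd; positivity
        linarith)
      hcA (by linarith) (by linarith) (by linarith) (by linarith) (by linarith) (by linarith)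
      (by
        have e : (g - d * iA) * (b1 * -A + b2 * -B) + -(d * B * iA) * b2
            = b1 * (g * -A + d * 1) + b2 * (g * -B + d * 0) := by
          linear_combination (d * b1) * hAi
        linarith)
      (by
        have e : d' * (b1 * -A + b2 * -B) + g' * b2
            = b1 * (g' * 0 + d' * -A) + b2 * (g' * 1 + d' * -B) := by ring
        linarith)
      (by
        have e : d' * (a1 * -A + a2 * -B) + g' * a2
            = a1 * (g' * 0 + d' * -A) + a2 * (g' * 1 + d' * -B) := by ring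
        linarith)
      (by
        have e : (g - d * iA) * (a1 * -A + a2 * -B) + -(d * B * iA) * a2
            = a1 * (g * -A + d * 1) + a2 * (g * -B + d * 0) := by
          linear_combination (d * a1) * hAi
        linarith)
      (by
        have e : (g - d * iA) * (c1 * -A + c2 * -B) - -(d * B * iA) * (-c2)
            = c1 * (g * -A + d * 1) + c2 * (g * -B + d * 0) := by
          linear_combination (d * c1) * hAi
        linarith)
      (by
        have e : d' * (c1 * -A + c2 * -B) - g' * (-c2)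
            = c1 * (g' * 0 + d' * -A) + c2 * (g' * 1 + d' * -B) := by ring
        linarith)
    linarith

end Pool.Agent.H30.Dol
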