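import Pool.Agent.H30.Dol.M1U
import Pool.Agent.H30.Dol.M1End

/-!
Core lemma M1 of MP_70580c_co (note 854, step 7): assembly.
-/

namespace Pool.Agent.H30.Dol

open H40Dol

/-- at most one core functional -/
lemma few (s ha hb hc hna va vb vc : ℝ) (hs1 : s ≤ 1)
    (h1 : va ≤ s * ha + (1 - s) * (ha + hna)) (h2 : vb ≤ s * hb) (h3 : vc ≤ s * hc)
    (h4 : hna ≤ hb + hc) : va + vb + vc ≤ ha + hb + hc := by
  have : (1 - s) * (ha + hna) ≤ (1 - s) * (ha + hb + hc) :=
    mul_le_mul_of_nonneg_left (by linarith) (by linarith)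
  linarith

/-- the translate of `K` -/
lemma exists_t (a b : ℝ × ℝ) (hab : 0 < dt a b) (x y : ℝ) :
    ∃ t : ℝ × ℝ, pr a t = x ∧ pr b t = y := by
  have hne : dt a b ≠ 0 := hab.ne'
  refine ⟨((x * b.2 - y * a.2) / dt a b, (y * a.1 - x * b.1) / dt a b), ?_, ?_⟩
  · simp only [pr]
    field_simp
    simp only [dt]
    ring
  · simp only [pr]
    field_simp
    simp only [dt]
    ring

section

variable {A B : ℝ} {h : ℝ × ℝ → ℝ} {φ1 φ2 φ3 : ℝ × ℝ}

/-- two core functionals with `dt a b > 0` -/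
lemma two (F : Fr A B h φ1 φ2 φ3)
    (hc3 : ∀ c : ℝ × ℝ, c.1 < 0 → c.2 < 0 → ∀ s : ℝ, 0 < s → s < 1 →
      ¬ (h c < (1 - s) * pr c (-A, -B) ∧ (1 - s) * pr c (-A, -B) < (2 * s - 1) * (-c.1) ∧
        (1 - s) * pr c (-A, -B) < (2 * s - 1) * (-c.2)))
    (s : ℝ) (hs0 : 0 ≤ s) (hs1 : s < 1) (q2 q3 f2 f3 : ℝ × ℝ)
    (hq2 : ∃ g d : ℝ, 0 ≤ g ∧ 0 ≤ d ∧ q2 = g • ((0 : ℝ), (1 : ℝ)) + d • (-A, -B))
    (hq3 : ∃ g d : ℝ, 0 ≤ g ∧ 0 ≤ d ∧ q3 = g • (-A, -B) + d • ((1 : ℝ), (0 : ℝ)))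
    (hm21 : pr f2 (1, 0) < pr f2 (-A, -B)) (hm23 : pr f2 (1, 0) < pr f2 (0, 1))
    (hm31 : pr f3 (0, 1) < pr f3 (-A, -B)) (hm32 : pr f3 (0, 1) < pr f3 (1, 0))
    (ht2 : h f2 + h (-f2) + s * pr f2 (1, 0) ≤ pr f2 q2)
    (ht3 : h f3 + h (-f3) + s * pr f3 (0, 1) ≤ pr f3 q3)
    (hw2 : s * pr f2 (1, 0) ≤ pr f2 q3) (hw3 : s * pr f3 (0, 1) ≤ pr f3 q2)
    (hdet : 0 ≤ dt f2 f3)
    (a b c p q r : ℝ × ℝ) (hc : c = -(a + b)) (hab : 0 < dt a b)
    (ha2 : 0 < dt (-f2) a) (ha3 : 0 < dt a (-f3))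
    (hb2 : 0 < dt (-f2) b) (hb3 : 0 < dt b (-f3))
    (hDp : ∀ x, pr x (p - q2) ≤ h x + h (-x)) (hDq : ∀ x, pr x (q - q3) ≤ h x + h (-x))
    (ua1 : pr a p ≤ s * h a + (1 - s) * (h a + h (-a)))
    (ua2 : pr a p ≤ h a - (1 - s) * pr a (-A, -B))
    (ub1 : pr b q ≤ s * h b + (1 - s) * (h b + h (-b)))
    (ub2 : pr b q ≤ h b - (1 - s) * pr b (-A, -B))
    (uc1 : pr c r ≤ s * h c) (uc2 : pr c r ≤ 0 ∨ pr c r ≤ s * c.1 ∨ pr c r ≤ s * c.2) :
    pr a p + pr b q + pr c r ≤ h a + h b + h c := by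
  by_contra hcon
  push Not at hcon
  obtain ⟨t, ht1, ht2'⟩ := exists_t a b hab (pr a p - h a) (pr b q - h b)
  have hsum0 : pr a t + pr b t + pr c t = 0 := by
    rw [hc, pr_neg_left, pr_add_left]; ring
  have hHc : h c + pr c t < pr c r := by linarith
  have hcs : h c + pr c t < s * h c := lt_of_lt_of_le hHc uc1
  -- differences
  have hD21 : pr f2 (-A, -B) - pr f2 (1, 0) ≤ h f2 + h (-f2) := by
    have h1 := F.hD3 (-f2)
    rw [neg_neg] at h1
    have e : pr (-f2) (-(1 + A), -B) = -(pr f2 (-A, -B) - pr f2 (1, 0)) := by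
      simp only [pr, Prod.fst_neg, Prod.snd_neg]; ring
    have h2 := F.hD3 f2
    have e' : pr f2 (-(1 + A), -B) = pr f2 (-A, -B) - pr f2 (1, 0) := by
      simp only [pr]; ring
    linarith
  have hD31 : pr f3 (-A, -B) - pr f3 (0, 1) ≤ h f3 + h (-f3) := by
    have h1 := F.hD2 (-f3)
    rw [neg_neg] at h1
    have e' : pr (-f3) (A, 1 + B) = pr f3 (-A, -B) - pr f3 (0, 1) := by
      simp only [pr, Prod.fst_neg, Prod.snd_neg]; ring
    linarith
  have hD23 : pr f2 (0, 1) - pr f2 (1, 0) ≤ h f2 + h (-f2) := by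
    have h1 := F.h3 f2
    have h2 := F.h2 (-f2)
    simp only [pr, Prod.fst_neg, Prod.snd_neg] at *
    linarith
  have hD32 : pr f3 (1, 0) - pr f3 (0, 1) ≤ h f3 + h (-f3) := by
    have h1 := F.h2 f3
    have h2 := F.h3 (-f3)
    simp only [pr, Prod.fst_neg, Prod.snd_neg] at *
    linarith
  -- U1 consequences
  have hHa : s * h (-a) ≤ h (-a) + pr (-a) t := by
    rw [pr_neg_left, ht1]; linarith
  have hHb : s * h (-b) ≤ h (-b) + pr (-b) t := by
    rw [pr_neg_left, ht2']; linarith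
  -- claim D, both sides
  have hag3 : 0 < dt a (-f3) := ha3
  obtain ⟨al, ga, hal, hga, hbe⟩ := cone_mem a b (-f3) hab hb3 hag3
  have cl3 : pr c q3 < h c + pr c t := by
    refine claimD h F.hadd F.hsmul s hs0 hs1 t a b c (-f3) q q3 (0, 1) al ga hal hga hbe hc hHa
      (by linarith) (hDq b) ?_ (F.h3 _) hcs
    rw [neg_neg]
    linarith
  obtain ⟨ga', al', hga', hal', hae⟩ := cone_mem (-f2) a b ha2 hab hb2
  have cl2 : pr c q2 < h c + pr c t := by
    refine claimD h F.hadd F.hsmul s hs0 hs1 t b a c (-f2) p q2 (1, 0) al' ga' hal' hga'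
      (by rw [hae]; abel_nf) (by rw [hc]; abel_nf) hHb
      (by linarith) (hDp a) ?_ (F.h2 _) hcs
    rw [neg_neg]
    linarith
  -- walls
  have dcf3 : 0 ≤ dt c f3 := by
    have : dt c f3 = dt a (-f3) + dt b (-f3) := by
      rw [hc]; simp only [dt, Prod.fst_neg, Prod.snd_neg, Prod.fst_add, Prod.snd_add]; ring
    linarith
  have df3g2 : 0 ≤ dt f3 (-f2) := by
    have : dt f3 (-f2) = dt f2 f3 := by simp only [dt, Prod.fst_neg, Prod.snd_neg]; ring
    linarith
  have dcg2 : 0 < dt c (-f2) := by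
    have : dt c (-f2) = dt (-f2) a + dt (-f2) b := by
      rw [hc]; simp only [dt, Prod.fst_neg, Prod.snd_neg, Prod.fst_add, Prod.snd_add]; ring
    linarith
  obtain ⟨ka, la, hka, hla, hf3e⟩ := cone_mem' c f3 (-f2) dcf3 df3g2 dcg2
  have hpos3 : 0 < h f3 + h (-f3) := by linarith
  have hpos2 : 0 < h f2 + h (-f2) := by linarith
  have wc1 : s * c.1 ≤ h c + pr c t := by
    have h1 := wallD s hs0 hs1 c f3 (-f2) q3 (1, 0) (0, 1) ka la (h c + pr c t)
      (h f3 + h (-f3)) hka hla hf3e cl3 (by rw [pr_neg_left, pr_neg_left]; linarith)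
      ht3 (by rw [pr_sub_right]; exact hD32) hpos3
    simp only [pr] at h1 ⊢
    linarith
  have dg3f2 : 0 ≤ dt (-f3) f2 := by
    have : dt (-f3) f2 = dt f2 f3 := by simp only [dt, Prod.fst_neg, Prod.snd_neg]; ring
    linarith
  have df2c : 0 ≤ dt f2 c := by
    have : dt f2 c = dt (-f2) a + dt (-f2) b := by
      rw [hc]; simp only [dt, Prod.fst_neg, Prod.snd_neg, Prod.fst_add, Prod.snd_add]; ring
    linarith
  have dg3c : 0 < dt (-f3) c := by
    have : dt (-f3) c = dt a (-f3) + dt b (-f3) := by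
      rw [hc]; simp only [dt, Prod.fst_neg, Prod.snd_neg, Prod.fst_add, Prod.snd_add]; ring
    linarith
  obtain ⟨la', ka', hla', hka', hf2e⟩ := cone_mem' (-f3) f2 c dg3f2 df2c dg3c
  have wc2 : s * c.2 ≤ h c + pr c t := by
    have h1 := wallD s hs0 hs1 c f2 (-f3) q2 (0, 1) (1, 0) ka' la' (h c + pr c t)
      (h f2 + h (-f2)) hka' hla' (by rw [add_comm]; exact hf2e) cl2
      (by rw [pr_neg_left, pr_neg_left]; linarith)
      ht2 (by rw [pr_sub_right]; exact hD23) hpos2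
    simp only [pr] at h1 ⊢
    linarith
  -- remaining case
  have hc0 : pr c r ≤ 0 := by
    rcases uc2 with h1 | h1 | h1
    · exact h1
    · exfalso; linarith
    · exfalso; linarith
  have hHneg : h c + pr c t < 0 := lt_of_lt_of_le hHc hc0
  have hc1neg : c.1 < 0 := by
    by_contra hh
    push Not at hh
    have := mul_nonneg hs0 hh
    linarith
  have hc2neg : c.2 < 0 := by
    by_contra hh
    push Not at hh
    have := mul_nonneg hs0 hh
    linarith
  have hspos : 0 < s := by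
    rcases hs0.eq_or_lt with h0 | h0
    · exfalso
      rw [← h0] at wc1
      linarith
    · exact h0
  have I1 : h c < (1 - s) * pr c (-A, -B) := by
    have e : pr c (-A, -B) = -(pr a (-A, -B) + pr b (-A, -B)) := by
      rw [hc, pr_neg_left, pr_add_left]
    rw [e]
    have e2 : pr c t = -(pr a t + pr b t) := by linarith
    linarith
  have I2 := m1_end A B s F.hA F.hB hs0 hs1 (h f2 + h (-f2)) (h f3 + h (-f3)) f2 f3 c q2 q3
    hq2 hq3 hm21 hm23 hm31 hm32 hD21 hD23 hD31 hD32 ht2 ht3 hw2 hw3 hc1neg hc2neg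
    (by linarith) (by linarith)
  exact hc3 c hc1neg hc2neg s hspos hs1 ⟨I1, I2.1, I2.2⟩

/-- parallel core functionals -/
lemma par (hsmul : ∀ t : ℝ, 0 ≤ t → ∀ a, h (t • a) = t * h a)
    (s : ℝ) (g2 a b c : ℝ × ℝ) (va vb vc : ℝ) (hc : c = -(a + b))
    (ha2 : 0 < dt g2 a) (hb2 : 0 < dt g2 b) (hab : dt a b = 0)
    (ua1 : va ≤ s * h a + (1 - s) * (h a + h (-a)))
    (ub1 : vb ≤ s * h b + (1 - s) * (h b + h (-b)))
    (uc1 : vc ≤ s * h c) : va + vb + vc ≤ h a + h b + h c := by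
  obtain ⟨k, hk⟩ : ∃ k, k = dt g2 b / dt g2 a := ⟨_, rfl⟩
  have hkpos : 0 < k := by rw [hk]; positivity
  have hkm : k * dt g2 a = dt g2 b := by rw [hk]; field_simp
  have hb : b = k • a := by
    have e1 : dt g2 a * b.1 = dt g2 b * a.1 - dt a b * g2.1 := by simp only [dt]; ring
    have e2 : dt g2 a * b.2 = dt g2 b * a.2 - dt a b * g2.2 := by simp only [dt]; ring
    rw [hab, ← hkm] at e1 e2
    ext
    · simp only [Prod.smul_fst, smul_eq_mul]
      have : dt g2 a * b.1 = dt g2 a * (k * a.1) := by linarith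
      exact mul_left_cancel₀ ha2.ne' this
    · simp only [Prod.smul_snd, smul_eq_mul]
      have : dt g2 a * b.2 = dt g2 a * (k * a.2) := by linarith
      exact mul_left_cancel₀ ha2.ne' this
  have hc' : c = (1 + k) • (-a) := by
    rw [hc, hb]; ext <;> simp <;> ring
  have h1 : h b = k * h a := by rw [hb, hsmul k hkpos.le]
  have h2 : h (-b) = k * h (-a) := by
    have : -b = k • (-a) := by rw [hb]; simp
    rw [this, hsmul k hkpos.le]
  have h3 : h c = (1 + k) * h (-a) := by rw [hc', hsmul (1 + k) (by linarith)]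
  rw [h2] at ub1
  rw [h1] at ub1 ⊢
  rw [h3] at uc1 ⊢
  linarith

end

/-- M1 (core lemma). -/
theorem mcore
    (A B : ℝ) (hA : 0 < A) (hB : 0 < B)
    (h : ℝ × ℝ → ℝ) (hadd : ∀ a b, h (a + b) ≤ h a + h b)
    (hsmul : ∀ t : ℝ, 0 ≤ t → ∀ a, h (t • a) = t * h a)
    (h2 : ∀ a, pr a (1, 0) ≤ h a) (h3 : ∀ a, pr a (0, 1) ≤ h a)
    (hD2 : ∀ a, pr a (A, 1 + B) ≤ h a + h (-a)) (hD3 : ∀ a, pr a (-(1 + A), -B) ≤ h a + h (-a))
    (φ1 φ2 φ3 : ℝ × ℝ)
    (n1 : pr φ1 (1, -1) = 1) (n2 : pr φ2 (A, 1 + B) = 1) (n3 : pr φ3 (-(1 + A), -B) = 1)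
    (w1 : h φ1 + h (-φ1) = 1) (w2 : h φ2 + h (-φ2) = 1) (w3 : h φ3 + h (-φ3) = 1)
    (z12 : pr φ1 (A, 1 + B) < 0) (z13 : pr φ1 (-(1 + A), -B) < 0)
    (z21 : pr φ2 (1, -1) < 0) (z23 : pr φ2 (-(1 + A), -B) < 0)
    (z31 : pr φ3 (1, -1) < 0) (z32 : pr φ3 (A, 1 + B) < 0)
    (hc3 : ∀ c : ℝ × ℝ, c.1 < 0 → c.2 < 0 → ∀ s : ℝ, 0 < s → s < 1 →
      ¬ (h c < (1 - s) * pr c (-A, -B) ∧ (1 - s) * pr c (-A, -B) < (2 * s - 1) * (-c.1) ∧
        (1 - s) * pr c (-A, -B) < (2 * s - 1) * (-c.2)))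
    (s : ℝ) (P : Set (ℝ × ℝ)) (q2 q3 f2 f3 : ℝ × ℝ)
    (hP : ∀ p ∈ P, 0 ≤ p.1 ∧ 0 ≤ p.2)
    (hq2 : ∃ g d : ℝ, 0 ≤ g ∧ 0 ≤ d ∧ q2 = g • ((0 : ℝ), (1 : ℝ)) + d • (-A, -B))
    (hq3 : ∃ g d : ℝ, 0 ≤ g ∧ 0 ≤ d ∧ q3 = g • (-A, -B) + d • ((1 : ℝ), (0 : ℝ)))
    (hcap : ∀ p ∈ P, ∀ l m : ℝ, 0 ≤ l → 0 ≤ m →
      pr (-(l • φ3) + m • φ2) p ≤ h (-(l • φ3) + m • φ2) + h (-(-(l • φ3) + m • φ2))
        + s * pr (-(l • φ3) + m • φ2) (-A, -B))
    (hf2 : f2 ≠ 0) (hf3 : f3 ≠ 0)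
    (hf2E : ∃ l m : ℝ, 0 ≤ l ∧ 0 ≤ m ∧ f2 = -(l • φ1) + m • φ3)
    (hf3E : ∃ l m : ℝ, 0 ≤ l ∧ 0 ≤ m ∧ f3 = -(l • φ2) + m • φ1)
    (ht2 : h f2 + h (-f2) + s * pr f2 (1, 0) ≤ pr f2 q2)
    (ht3 : h f3 + h (-f3) + s * pr f3 (0, 1) ≤ pr f3 q3)
    (hD12 : ∀ a, ∀ p ∈ P, pr a (p - q2) ≤ h a + h (-a))
    (hD13 : ∀ a, ∀ p ∈ P, pr a (p - q3) ≤ h a + h (-a))
    (hD23 : ∀ a, pr a (q2 - q3) ≤ h a + h (-a))
    (a b c : ℝ × ℝ) (habc : a + b + c = 0)
    (p : ℝ × ℝ) (hp : p ∈ P) (q : ℝ × ℝ) (hq : q ∈ P) (r : ℝ × ℝ) (hr : r ∈ P) :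
    pr a p + pr b q + pr c r ≤ h a + h b + h c := by
  have F : Fr A B h φ1 φ2 φ3 := ⟨hA, hB, hadd, hsmul, h2, h3, hD2, hD3, n1, n2, n3, w1, w2, w3,
    z12, z13, z21, z23, z31, z32⟩
  obtain ⟨l, m, hl, hm, hf2e⟩ := hf2E
  obtain ⟨l', m', hl', hm', hf3e⟩ := hf3E
  have p11 := F.p11
  have p12 := F.p12
  have p22 := F.p22
  have p31 := F.p31
  have k12 := F.d12
  have k23 := F.d23
  have k31 := F.d31
  have hnn := F.hnn hc3
  have hlm : 0 < l + m := by
    rcases hl.eq_or_lt with h0 | h0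
    · rcases hm.eq_or_lt with h1 | h1
      · exfalso; apply hf2; rw [hf2e, ← h0, ← h1]; simp
      · linarith
    · linarith
  have hlm' : 0 < l' + m' := by
    rcases hl'.eq_or_lt with h0 | h0
    · rcases hm'.eq_or_lt with h1 | h1
      · exfalso; apply hf3; rw [hf3e, ← h0, ← h1]; simp
      · linarith
    · linarith
  -- g2, g3
  have g2e : -f2 = l • φ1 - m • φ3 := by rw [hf2e]; abel
  have g3e : -f3 = l' • φ2 - m' • φ1 := by rw [hf3e]; abel
  have posc : ∀ x y u v : ℝ, 0 ≤ x → 0 ≤ y → 0 < x + y → 0 < u → 0 < v → 0 < x * u + y * v := by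
    intro x y u v hx hy hxy hu hv
    rcases hx.eq_or_lt with h0 | h0
    · have : 0 < y := by linarith
      have := mul_pos this hv
      have := mul_nonneg hx hu.le
      linarith
    · have := mul_pos h0 hu
      have := mul_nonneg hy hv.le
      linarith
  have hg2pos : 0 < (-f2).1 := by
    rw [g2e]
    have := posc l m φ1.1 (-φ3.1) hl hm hlm p11 (by linarith)
    simp only [Prod.fst_sub, Prod.smul_fst, smul_eq_mul]
    linarith
  have hg3pos : 0 < (-f3).2 := by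
    rw [g3e]
    have := posc l' m' φ2.2 (-φ1.2) hl' hm' hlm' p22 (by linarith)
    simp only [Prod.snd_sub, Prod.smul_snd, smul_eq_mul]
    linarith
  have hdet : 0 ≤ dt (-f2) (-f3) := by
    have e : dt (-f2) (-f3) = l * l' * dt φ1 φ2 + m * l' * dt φ2 φ3 + m * m' * dt φ3 φ1 := by
      rw [g2e, g3e]
      simp only [dt, Prod.fst_sub, Prod.snd_sub, Prod.smul_fst, Prod.smul_snd, smul_eq_mul]
      ring
    rw [e]; positivity
  have hdet' : 0 ≤ dt f2 f3 := by
    have : dt (-f2) (-f3) = dt f2 f3 := by simp only [dt, Prod.fst_neg, Prod.snd_neg]; ring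
    linarith
  -- f2, f3 smallest
  have m21 : pr f2 (1, 0) < pr f2 (-A, -B) := by
    have := posc l m (-pr φ1 (-(1 + A), -B)) (pr φ3 (-(1 + A), -B)) hl hm hlm (by linarith)
      (by linarith)
    have e : pr f2 (-A, -B) - pr f2 (1, 0)
        = l * (-pr φ1 (-(1 + A), -B)) + m * pr φ3 (-(1 + A), -B) := by
      rw [hf2e]
      simp only [pr, Prod.fst_add, Prod.snd_add, Prod.fst_neg, Prod.snd_neg, Prod.smul_fst,
        Prod.smul_snd, smul_eq_mul]
      ring
    linarith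
  have m23 : pr f2 (1, 0) < pr f2 (0, 1) := by
    have := posc l m (pr φ1 (1, -1)) (-pr φ3 (1, -1)) hl hm hlm (by linarith) (by linarith)
    have e : pr f2 (0, 1) - pr f2 (1, 0) = l * (pr φ1 (1, -1)) + m * (-pr φ3 (1, -1)) := by
      rw [hf2e]
      simp only [pr, Prod.fst_add, Prod.snd_add, Prod.fst_neg, Prod.snd_neg, Prod.smul_fst,
        Prod.smul_snd, smul_eq_mul]
      ring
    linarith
  have m31 : pr f3 (0, 1) < pr f3 (-A, -B) := by
    have := posc l' m' (pr φ2 (A, 1 + B)) (-pr φ1 (A, 1 + B)) hl' hm' hlm' (by linarith)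
      (by linarith)
    have e : pr f3 (-A, -B) - pr f3 (0, 1)
        = l' * (pr φ2 (A, 1 + B)) + m' * (-pr φ1 (A, 1 + B)) := by
      rw [hf3e]
      simp only [pr, Prod.fst_add, Prod.snd_add, Prod.fst_neg, Prod.snd_neg, Prod.smul_fst,
        Prod.smul_snd, smul_eq_mul]
      ring
    linarith
  have m32 : pr f3 (0, 1) < pr f3 (1, 0) := by
    have := posc l' m' (-pr φ2 (1, -1)) (pr φ1 (1, -1)) hl' hm' hlm' (by linarith) (by linarith)
    have e : pr f3 (1, 0) - pr f3 (0, 1) = l' * (-pr φ2 (1, -1)) + m' * (pr φ1 (1, -1)) := by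
      rw [hf3e]
      simp only [pr, Prod.fst_add, Prod.snd_add, Prod.fst_neg, Prod.snd_neg, Prod.smul_fst,
        Prod.smul_snd, smul_eq_mul]
      ring
    linarith
  -- walls
  have W2 : ∀ x ∈ P, pr (-f2) x ≤ s * (-f2).1 := by
    intro x hx
    have h1 := hD12 (-f2) x hx
    rw [neg_neg, pr_sub_right, pr_neg_left, pr_neg_left] at h1
    rw [pr_neg_left]
    simp only [pr, Prod.fst_neg] at *
    linarith
  have W3 : ∀ x ∈ P, pr (-f3) x ≤ s * (-f3).2 := by
    intro x hx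
    have h1 := hD13 (-f3) x hx
    rw [neg_neg, pr_sub_right, pr_neg_left, pr_neg_left] at h1
    rw [pr_neg_left]
    simp only [pr, Prod.snd_neg] at *
    linarith
  have W23 : s * pr f2 (1, 0) ≤ pr f2 q3 := by
    have h1 := hD23 f2
    rw [pr_sub_right] at h1
    linarith
  have W32 : s * pr f3 (0, 1) ≤ pr f3 q2 := by
    have h1 := hD23 (-f3)
    rw [neg_neg, pr_sub_right, pr_neg_left, pr_neg_left] at h1
    linarith
  have sumh : 0 ≤ h a + h b + h c := by
    have := hnn a; have := hnn b; have := hnn c; linarith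
  rcases le_or_gt 1 s with hs | hs
  · -- s ≥ 1
    have key : ∀ x y : ℝ × ℝ, y ∈ P → pr x y ≤ h x := by
      intro x y hy
      obtain ⟨hy1, hy2⟩ := hP y hy
      have c2 := F.cap2 s y (hcap y hy)
      have c3 := F.cap3 s y (hcap y hy)
      have u2 := F.u21neg
      have u3 := F.u31pos
      have c2' : pr φ2 y ≤ φ2.2 := by
        have i1 : 0 ≤ (s - 1) * (-(φ2.2 - 1)) := mul_nonneg (by linarith) (by linarith)
        linarith only [i1, c2]
      have c3' : pr (-φ3) y ≤ -φ3.1 := by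
        have i1 : 0 ≤ (s - 1) * (φ3.1 + 1) := mul_nonneg (by linarith) u3.le
        linarith only [i1, c3]
      have hcap1 : ∀ l m : ℝ, 0 ≤ l → 0 ≤ m →
          pr (-(l • φ3) + m • φ2) y ≤ h (-(l • φ3) + m • φ2) + h (-(-(l • φ3) + m • φ2))
            + 1 * pr (-(l • φ3) + m • φ2) (-A, -B) := by
        intro l m hl hm
        have h1 := hcap y hy l m hl hm
        have h4 : pr (-(l • φ3) + m • φ2) (-A, -B) ≤ 0 := by
          rw [pr_add_left, pr_neg_left, pr_smul_left, pr_smul_left, F.u31, F.u21]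
          have := mul_nonneg hl u3.le
          have := mul_nonpos_of_nonneg_of_nonpos hm u2.le
          linarith
        have h5 : s * pr (-(l • φ3) + m • φ2) (-A, -B) ≤ 1 * pr (-(l • φ3) + m • φ2) (-A, -B) :=
          mul_le_mul_of_nonpos_right hs h4
        linarith only [h1, h5]
      have v1 : pr φ1 y ≤ φ1.1 := by
        have i : (-φ3.1) * pr φ1 y = φ1.1 * pr (-φ3) y - dt φ3 φ1 * y.2 := by
          simp only [pr, dt, Prod.fst_neg, Prod.snd_neg]; ring
        have j1 : φ1.1 * pr (-φ3) y ≤ φ1.1 * (-φ3.1) := mul_le_mul_of_nonneg_left c3' p11.le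
        have j2 := mul_nonneg k31.le hy2
        have j3 : (-φ3.1) * pr φ1 y ≤ (-φ3.1) * φ1.1 := by linarith
        exact le_of_mul_le_mul_left j3 (by linarith)
      have v2 : pr (-φ1) y ≤ -φ1.2 := by
        have i : φ2.2 * pr (-φ1) y = (-φ1.2) * pr φ2 y - dt φ1 φ2 * y.1 := by
          simp only [pr, dt, Prod.fst_neg, Prod.snd_neg]; ring
        have j1 : (-φ1.2) * pr φ2 y ≤ (-φ1.2) * φ2.2 := mul_le_mul_of_nonneg_left c2' (by linarith)
        have j2 := mul_nonneg k12.le hy1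
        have j3 : φ2.2 * pr (-φ1) y ≤ φ2.2 * (-φ1.2) := by linarith
        exact le_of_mul_le_mul_left j3 p22
      by_cases hcore : 0 < dt φ1 x ∧ 0 < dt x (-φ1)
      · have := F.core_bounds 1 le_rfl zero_le_one 1 0 0 1 zero_le_one le_rfl le_rfl zero_le_one
          φ1 (-φ1) (by simp) (by simp) y x hcap1 (by linarith) (by simp at v2 ⊢; linarith)
          hcore.1 hcore.2
        linarith [this.1]
      · have hd0 : dt φ1 (-φ1) = 0 := by simp only [dt, Prod.fst_neg, Prod.snd_neg]; ring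
        have hx2 := h2 x
        have hx3 := h3 x
        have hx0 := hnn x
        simp only [pr] at hx2 hx3
        rcases noncore 1 φ1 (-φ1) x y p11 (by simp; linarith) (by rw [hd0]) hy1 hy2
          (by linarith) (by simp at v2 ⊢; linarith) hcore with h1 | h1 | h1
        · linarith
        · linarith
        · linarith
    have := key a p hp
    have := key b q hq
    have := key c r hr
    linarith
  · -- s < 1
    have hs0 : 0 ≤ s := by
      by_contra hcon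
      push Not at hcon
      obtain ⟨hp1, hp2⟩ := hP p hp
      have e2 := W2 p hp
      have e3 := W3 p hp
      obtain ⟨x1, x2⟩ := f2
      obtain ⟨y1, y2⟩ := f3
      simp only [pr, dt, Prod.fst_neg, Prod.snd_neg] at *
      -- e2 : -x1 p1 - x2 p2 ≤ s (-x1) < 0
      have n2' : s * -x1 < 0 := mul_neg_of_neg_of_pos hcon hg2pos
      have n3' : s * -y2 < 0 := mul_neg_of_neg_of_pos hcon hg3pos
      have a1 : 0 < x2 * p.2 := by
        have := mul_nonneg hg2pos.le hp1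
        linarith
      have b1 : 0 < y1 * p.1 := by
        have := mul_nonneg hg3pos.le hp2
        linarith
      have hp2' : 0 < p.2 := by
        rcases hp2.eq_or_lt with h0 | h0
        · rw [← h0] at a1; simp at a1
        · exact h0
      have hp1' : 0 < p.1 := by
        rcases hp1.eq_or_lt with h0 | h0
        · rw [← h0] at b1; simp at b1
        · exact h0
      have hx2 : 0 < x2 := (mul_pos_iff_of_pos_right hp2').mp a1
      have hy1 : 0 < y1 := (mul_pos_iff_of_pos_right hp1').mp b1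
      have A1 : (-x1) * p.1 < x2 * p.2 := by linarith
      have B1 : (-y2) * p.2 < y1 * p.1 := by linarith
      have C1 : ((-x1) * p.1) * ((-y2) * p.2) < (x2 * p.2) * (y1 * p.1) := by
        have q1 : 0 ≤ (-x1) * p.1 := mul_nonneg hg2pos.le hp1
        have q2 : 0 ≤ (-y2) * p.2 := mul_nonneg hg3pos.le hp2
        exact mul_lt_mul'' A1 B1 q1 q2
      have C2 : (p.1 * p.2) * (-x1 * -y2 - -x2 * -y1) < 0 := by linarith
      have C3 : 0 ≤ (p.1 * p.2) * (-x1 * -y2 - -x2 * -y1) := by positivity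
      linarith
    -- bounds
    have U : ∀ x y : ℝ × ℝ, y ∈ P → 0 < dt (-f2) x → 0 < dt x (-f3) →
        pr x y ≤ s * h x + (1 - s) * (h x + h (-x)) ∧ pr x y ≤ h x - (1 - s) * pr x (-A, -B) := by
      intro x y hy hx2 hx3
      exact F.core_bounds s hs.le hs0 l m l' m' hl hm hl' hm' (-f2) (-f3) g2e g3e y x
        (hcap y hy) (W2 y hy) (W3 y hy) hx2 hx3
    have N : ∀ x y : ℝ × ℝ, y ∈ P → ¬ (0 < dt (-f2) x ∧ 0 < dt x (-f3)) →
        pr x y ≤ s * h x ∧ (pr x y ≤ 0 ∨ pr x y ≤ s * x.1 ∨ pr x y ≤ s * x.2) := by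
      intro x y hy hx
      have h1 := noncore s (-f2) (-f3) x y hg2pos hg3pos hdet (hP y hy).1 (hP y hy).2
        (W2 y hy) (W3 y hy) hx
      refine ⟨?_, h1⟩
      have hx2 := h2 x
      have hx3 := h3 x
      have hx0 := hnn x
      simp only [pr] at hx2 hx3
      have k1 : s * x.1 ≤ s * h x := mul_le_mul_of_nonneg_left (by linarith) hs0
      have k2 : s * x.2 ≤ s * h x := mul_le_mul_of_nonneg_left (by linarith) hs0
      have k3 : 0 ≤ s * h x := mul_nonneg hs0 hx0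
      rcases h1 with h1 | h1 | h1 <;> linarith
    -- two core functionals a, b
    have T2 : ∀ a b c p q r : ℝ × ℝ, a + b + c = 0 → p ∈ P → q ∈ P → r ∈ P →
        0 < dt a b → (0 < dt (-f2) a ∧ 0 < dt a (-f3)) → (0 < dt (-f2) b ∧ 0 < dt b (-f3)) →
        ¬ (0 < dt (-f2) c ∧ 0 < dt c (-f3)) → pr a p + pr b q + pr c r ≤ h a + h b + h c := by
      intro a b c p q r habc hp hq hr hab ha hb hc
      have hce : c = -(a + b) := by
        rw [eq_neg_iff_add_eq_zero, add_comm]; exact habc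
      obtain ⟨ua1, ua2⟩ := U a p hp ha.1 ha.2
      obtain ⟨ub1, ub2⟩ := U b q hq hb.1 hb.2
      obtain ⟨uc1, uc2⟩ := N c r hr hc
      exact two F hc3 s hs0 hs q2 q3 f2 f3 hq2 hq3 m21 m23 m31 m32 ht2 ht3 W23 W32 hdet'
        a b c p q r hce hab ha.1 ha.2 hb.1 hb.2 (fun x => hD12 x p hp) (fun x => hD13 x q hq)
        ua1 ua2 ub1 ub2 uc1 uc2
    have T : ∀ a b c p q r : ℝ × ℝ, a + b + c = 0 → p ∈ P → q ∈ P → r ∈ P →
        (0 < dt (-f2) a ∧ 0 < dt a (-f3)) → (0 < dt (-f2) b ∧ 0 < dt b (-f3)) →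
        ¬ (0 < dt (-f2) c ∧ 0 < dt c (-f3)) → pr a p + pr b q + pr c r ≤ h a + h b + h c := by
      intro a b c p q r habc hp hq hr ha hb hc
      rcases lt_trichotomy 0 (dt a b) with h1 | h1 | h1
      · exact T2 a b c p q r habc hp hq hr h1 ha hb hc
      · have hce : c = -(a + b) := by
          rw [eq_neg_iff_add_eq_zero, add_comm]; exact habc
        exact par hsmul s (-f2) a b c _ _ _ hce ha.1 hb.1 h1.symm
          (U a p hp ha.1 ha.2).1 (U b q hq hb.1 hb.2).1 (N c r hr hc).1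
      · have h5 : 0 < dt b a := by
          have : dt b a = -dt a b := by simp only [dt]; ring
          linarith
        have := T2 b a c q p r (by rw [add_comm b a]; exact habc) hq hp hr h5 hb ha hc
        linarith
    -- one core functional
    have O : ∀ a b c p q r : ℝ × ℝ, a + b + c = 0 → p ∈ P → q ∈ P → r ∈ P →
        (0 < dt (-f2) a ∧ 0 < dt a (-f3)) → ¬ (0 < dt (-f2) b ∧ 0 < dt b (-f3)) →
        ¬ (0 < dt (-f2) c ∧ 0 < dt c (-f3)) → pr a p + pr b q + pr c r ≤ h a + h b + h c := by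
      intro a b c p q r habc hp hq hr ha hb hc
      have hne : -a = b + c := by
        rw [neg_eq_iff_add_eq_zero, ← add_assoc]; exact habc
      have h4 : h (-a) ≤ h b + h c := by rw [hne]; exact hadd b c
      exact few s _ _ _ _ _ _ _ hs.le (U a p hp ha.1 ha.2).1 (N b q hq hb).1 (N c r hr hc).1 h4
    by_cases ca : 0 < dt (-f2) a ∧ 0 < dt a (-f3)
    · by_cases cb : 0 < dt (-f2) b ∧ 0 < dt b (-f3)
      · by_cases cc : 0 < dt (-f2) c ∧ 0 < dt c (-f3)
        · exfalso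
          have e : dt (-f2) a + dt (-f2) b + dt (-f2) c = dt (-f2) (a + b + c) := by
            simp only [dt, Prod.fst_add, Prod.snd_add]; ring
          rw [habc] at e
          simp only [dt, Prod.fst_zero, Prod.snd_zero, mul_zero, sub_zero] at e ca cb cc
          linarith [ca.1, cb.1, cc.1]
        · exact T a b c p q r habc hp hq hr ca cb cc
      · by_cases cc : 0 < dt (-f2) c ∧ 0 < dt c (-f3)
        · have := T a c b p r q (by rw [add_right_comm]; exact habc) hp hr hq ca cc cb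
          linarith
        · exact O a b c p q r habc hp hq hr ca cb cc
    · by_cases cb : 0 < dt (-f2) b ∧ 0 < dt b (-f3)
      · by_cases cc : 0 < dt (-f2) c ∧ 0 < dt c (-f3)
        · have := T b c a q r p (by rw [add_comm (b + c) a, ← add_assoc]; exact habc) hq hr hp
            cb cc ca
          linarith
        · have := O b a c q p r (by rw [add_comm b a]; exact habc) hq hp hr cb ca cc
          linarith
      · by_cases cc : 0 < dt (-f2) c ∧ 0 < dt c (-f3)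
        · have := O c a b r p q (by rw [add_assoc, add_comm c, habc]) hr hp hq cc ca cb
          linarith
        · have h1 := (N a p hp ca).1
          have h2 := (N b q hq cb).1
          have h3 := (N c r hr cc).1
          have : s * (h a + h b + h c) ≤ 1 * (h a + h b + h c) :=
            mul_le_mul_of_nonneg_right hs.le sumh
          linarith

end Pool.Agent.H30.Dol
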