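import Pool.Agent.H40.Dol.Defs

/-!
Claim D and its consequences, for the core lemma M1 of MP_70580c_co (note 854, step 7).
-/

namespace Pool.Agent.H30.Dol

open H40Dol

lemma pr_add_left (a b p : ℝ × ℝ) : pr (a + b) p = pr a p + pr b p := by
  simp only [pr, Prod.fst_add, Prod.snd_add]; ring

lemma pr_neg_left (a p : ℝ × ℝ) : pr (-a) p = -pr a p := by
  simp only [pr, Prod.fst_neg, Prod.snd_neg]; ring

lemma pr_smul_left (t : ℝ) (a p : ℝ × ℝ) : pr (t • a) p = t * pr a p := by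
  simp only [pr, Prod.smul_fst, Prod.smul_snd, smul_eq_mul]; ring

lemma pr_sub_right (a p q : ℝ × ℝ) : pr a (p - q) = pr a p - pr a q := by
  simp only [pr, Prod.fst_sub, Prod.snd_sub]; ring

/-- Claim D: `c (q3) ≥ h_t (c)` is impossible. -/
theorem claimD (h : ℝ × ℝ → ℝ) (hadd : ∀ a b, h (a + b) ≤ h a + h b)
    (hsmul : ∀ t : ℝ, 0 ≤ t → ∀ a, h (t • a) = t * h a)
    (s : ℝ) (hs0 : 0 ≤ s) (hs1 : s < 1) (t a b c g3 q q3 u3 : ℝ × ℝ) (al ga : ℝ)
    (hal : 0 < al) (hga : 0 < ga) (hb : b = al • a + ga • g3) (hc : c = -(a + b))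
    (hHa : s * h (-a) ≤ h (-a) + pr (-a) t)
    (hHb : h b + pr b t = pr b q)
    (hD : pr b (q - q3) ≤ h b + h (-b))
    (htight : h (-g3) + h g3 + s * pr (-g3) u3 ≤ pr (-g3) q3)
    (hu3 : pr g3 u3 ≤ h g3)
    (hcs : h c + pr c t < s * h c) : pr c q3 < h c + pr c t := by
  by_contra hcon
  push Not at hcon
  have e1 : (1 + al) • (-b) = al • c + ga • (-g3) := by
    rw [hc]
    ext <;> simp only [hb, Prod.fst_add, Prod.snd_add, Prod.fst_neg, Prod.snd_neg,
      Prod.smul_fst, Prod.smul_snd, smul_eq_mul] <;> ring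
  have e2 : c + ga • g3 = (1 + al) • (-a) := by
    rw [hc]
    ext <;> simp only [hb, Prod.fst_add, Prod.snd_add, Prod.fst_neg, Prod.snd_neg,
      Prod.smul_fst, Prod.smul_snd, smul_eq_mul] <;> ring
  have hbq : pr (-b) q3 ≤ h (-b) + pr (-b) t := by
    rw [pr_neg_left, pr_neg_left]
    rw [pr_sub_right] at hD
    linarith
  have s1 : (1 + al) * h (-b) ≤ al * h c + ga * h (-g3) := by
    have h1 := hadd (al • c) (ga • (-g3))
    rw [← e1, hsmul _ (by linarith), hsmul _ hal.le, hsmul _ hga.le] at h1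
    exact h1
  have p1 : (1 + al) * pr (-b) q3 = al * pr c q3 + ga * pr (-g3) q3 := by
    have h1 : pr ((1 + al) • (-b)) q3 = pr (al • c + ga • (-g3)) q3 := by rw [e1]
    rw [pr_add_left, pr_smul_left, pr_smul_left, pr_smul_left] at h1
    exact h1
  have p2 : (1 + al) * pr (-b) t = al * pr c t + ga * pr (-g3) t := by
    have h1 : pr ((1 + al) • (-b)) t = pr (al • c + ga • (-g3)) t := by rw [e1]
    rw [pr_add_left, pr_smul_left, pr_smul_left, pr_smul_left] at h1
    exact h1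
  have hg : ga * pr (-g3) q3 ≤ ga * (h (-g3) + pr (-g3) t) := by
    have h1 : (1 + al) * pr (-b) q3 ≤ (1 + al) * (h (-b) + pr (-b) t) :=
      mul_le_mul_of_nonneg_left hbq (by linarith)
    have h2 : al * (h c + pr c t) ≤ al * pr c q3 := mul_le_mul_of_nonneg_left hcon hal.le
    linarith
  have hg' : pr (-g3) q3 ≤ h (-g3) + pr (-g3) t := le_of_mul_le_mul_left hg hga
  have hG : h g3 + pr g3 t ≤ s * h g3 := by
    have h1 : s * pr g3 u3 ≤ s * h g3 := mul_le_mul_of_nonneg_left hu3 hs0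
    rw [pr_neg_left] at hg' htight
    rw [pr_neg_left] at hg' htight
    linarith
  have hdef : (1 + al) * h (-a) ≤ h c + ga * h g3 := by
    have h1 := hadd c (ga • g3)
    rw [e2, hsmul _ (by linarith), hsmul _ hga.le] at h1
    exact h1
  have hpr : (1 + al) * pr (-a) t = pr c t + ga * pr g3 t := by
    have h1 : pr (c + ga • g3) t = pr ((1 + al) • (-a)) t := by rw [e2]
    rw [pr_add_left, pr_smul_left, pr_smul_left] at h1
    exact h1.symm
  have k1 : ga * (h g3 + pr g3 t) ≤ ga * (s * h g3) := mul_le_mul_of_nonneg_left hG hga.le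
  have k2 : (1 + al) * (s * h (-a)) ≤ (1 + al) * (h (-a) + pr (-a) t) :=
    mul_le_mul_of_nonneg_left hHa (by linarith)
  have k3 : (1 - s) * (h c + ga * h g3 - (1 + al) * h (-a)) < 0 := by
    have : h c + ga * h g3 - (1 + al) * h (-a)
        < s * (h c + ga * h g3 - (1 + al) * h (-a)) := by linarith
    linarith
  have k4 : 0 ≤ (1 - s) * (h c + ga * h g3 - (1 + al) * h (-a)) :=
    mul_nonneg (by linarith) (by linarith)
  linarith

/-- from Claim D: `s * c (u2) ≤ h_t (c)`. -/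
theorem wallD (s : ℝ) (hs0 : 0 ≤ s) (hs1 : s < 1) (c f3 g2 q3 u2 u3 : ℝ × ℝ) (ka la Hc D3 : ℝ)
    (hka : 0 ≤ ka) (hla : 0 ≤ la) (hf3 : f3 = ka • c + la • g2)
    (hclaim : pr c q3 < Hc) (hwall : pr g2 q3 ≤ s * pr g2 u2)
    (htight : D3 + s * pr f3 u3 ≤ pr f3 q3) (hD3 : pr f3 (u2 - u3) ≤ D3) (hD3pos : 0 < D3) :
    s * pr c u2 ≤ Hc := by
  by_contra hcon
  push Not at hcon
  have h1 : pr f3 q3 ≤ s * pr f3 u2 := by
    rw [hf3, pr_add_left, pr_add_left, pr_smul_left, pr_smul_left, pr_smul_left, pr_smul_left]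
    have a1 : ka * pr c q3 ≤ ka * (s * pr c u2) := mul_le_mul_of_nonneg_left (by linarith) hka
    have a2 : la * pr g2 q3 ≤ la * (s * pr g2 u2) := mul_le_mul_of_nonneg_left hwall hla
    linarith
  rw [pr_sub_right] at hD3
  have h2 : s * (pr f3 u2 - pr f3 u3) ≤ s * D3 := mul_le_mul_of_nonneg_left hD3 hs0
  have h3 : 0 < (1 - s) * D3 := mul_pos (by linarith) hD3pos
  linarith

/-- linear combination: `b` in the open cone of `a` and `g` -/
lemma cone_mem (a b g : ℝ × ℝ) (hab : 0 < dt a b) (hbg : 0 < dt b g) (hag : 0 < dt a g) :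
    ∃ al ga : ℝ, 0 < al ∧ 0 < ga ∧ b = al • a + ga • g := by
  refine ⟨dt b g / dt a g, dt a b / dt a g, by positivity, by positivity, ?_⟩
  have hne : dt a g ≠ 0 := hag.ne'
  have e1 : dt a g * b.1 = dt b g * a.1 + dt a b * g.1 := by simp only [dt]; ring
  have e2 : dt a g * b.2 = dt b g * a.2 + dt a b * g.2 := by simp only [dt]; ring
  ext
  · simp only [Prod.fst_add, Prod.smul_fst, smul_eq_mul]
    field_simp
    linarith
  · simp only [Prod.snd_add, Prod.smul_snd, smul_eq_mul]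
    field_simp
    linarith

/-- linear combination: `b` in the closed cone of `a` and `g` -/
lemma cone_mem' (a b g : ℝ × ℝ) (hab : 0 ≤ dt a b) (hbg : 0 ≤ dt b g) (hag : 0 < dt a g) :
    ∃ al ga : ℝ, 0 ≤ al ∧ 0 ≤ ga ∧ b = al • a + ga • g := by
  refine ⟨dt b g / dt a g, dt a b / dt a g, by positivity, by positivity, ?_⟩
  have hne : dt a g ≠ 0 := hag.ne'
  have e1 : dt a g * b.1 = dt b g * a.1 + dt a b * g.1 := by simp only [dt]; ring
  have e2 : dt a g * b.2 = dt b g * a.2 + dt a b * g.2 := by simp only [dt]; ring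
  ext
  · simp only [Prod.fst_add, Prod.smul_fst, smul_eq_mul]
    field_simp
    linarith
  · simp only [Prod.snd_add, Prod.smul_snd, smul_eq_mul]
    field_simp
    linarith

end Pool.Agent.H30.Dol
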