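import Pool.Agent.H30.Dol.M1D

/-!
Bounds for core and non-core functionals (note 854, step 7).
-/

namespace Pool.Agent.H30.Dol

open H40Dol

/-- non-core functionals: `a (p) ≤ max (0, s a(u2), s a(u3))` -/
lemma noncore (s : ℝ) (g2 g3 a p : ℝ × ℝ) (hg2 : 0 < g2.1) (hg3 : 0 < g3.2)
    (hdet : 0 ≤ dt g2 g3) (hp1 : 0 ≤ p.1) (hp2 : 0 ≤ p.2)
    (hw2 : pr g2 p ≤ s * g2.1) (hw3 : pr g3 p ≤ s * g3.2)
    (hn : ¬ (0 < dt g2 a ∧ 0 < dt a g3)) :
    pr a p ≤ 0 ∨ pr a p ≤ s * a.1 ∨ pr a p ≤ s * a.2 := by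
  have hn' : dt g2 a ≤ 0 ∨ dt a g3 ≤ 0 := by
    rcases le_or_gt (dt g2 a) 0 with h | h
    · exact Or.inl h
    · right
      by_contra hcon
      push Not at hcon
      exact hn ⟨h, hcon⟩
  have i2 : g2.1 * pr a p = a.1 * pr g2 p + dt g2 a * p.2 := by simp only [pr, dt]; ring
  have i3 : g3.2 * pr a p = a.2 * pr g3 p + dt a g3 * p.1 := by simp only [pr, dt]; ring
  have c2 : 0 ≤ a.1 → dt g2 a ≤ 0 → pr a p ≤ s * a.1 := by
    intro h1 h2
    have k1 : a.1 * pr g2 p ≤ a.1 * (s * g2.1) := mul_le_mul_of_nonneg_left hw2 h1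
    have k2 : dt g2 a * p.2 ≤ 0 := mul_nonpos_of_nonpos_of_nonneg h2 hp2
    have k3 : g2.1 * pr a p ≤ g2.1 * (s * a.1) := by linarith
    exact le_of_mul_le_mul_left k3 hg2
  have c3 : 0 ≤ a.2 → dt a g3 ≤ 0 → pr a p ≤ s * a.2 := by
    intro h1 h2
    have k1 : a.2 * pr g3 p ≤ a.2 * (s * g3.2) := mul_le_mul_of_nonneg_left hw3 h1
    have k2 : dt a g3 * p.1 ≤ 0 := mul_nonpos_of_nonpos_of_nonneg h2 hp1
    have k3 : g3.2 * pr a p ≤ g3.2 * (s * a.2) := by linarith
    exact le_of_mul_le_mul_left k3 hg3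
  rcases le_or_gt a.1 0 with h1 | h1
  · rcases le_or_gt a.2 0 with h2 | h2
    · left
      simp only [pr]
      have := mul_nonpos_of_nonpos_of_nonneg h1 hp1
      have := mul_nonpos_of_nonpos_of_nonneg h2 hp2
      linarith
    · -- a.1 ≤ 0 < a.2
      right; right
      refine c3 h2.le ?_
      rcases hn' with h | h
      · -- dt g2 a ≤ 0
        simp only [dt] at h hdet ⊢
        -- g2.1 a.2 ≤ g2.2 a.1
        have hpos : 0 < g2.1 * a.2 := mul_pos hg2 h2
        have hg22 : g2.2 < 0 := by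
          by_contra hcon
          push Not at hcon
          have := mul_nonpos_of_nonneg_of_nonpos hcon h1
          linarith
        have k1 : (-g2.2) * (a.1 * g3.2 - a.2 * g3.1) ≤ 0 := by
          have e1 : (-g2.2) * (a.1 * g3.2 - a.2 * g3.1)
              = (g2.1 * a.2 - g2.2 * a.1) * g3.2 - a.2 * (g2.1 * g3.2 - g2.2 * g3.1) := by ring
          rw [e1]
          have h3 : (g2.1 * a.2 - g2.2 * a.1) * g3.2 ≤ 0 :=
            mul_nonpos_of_nonpos_of_nonneg h hg3.le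
          have h4 : 0 ≤ a.2 * (g2.1 * g3.2 - g2.2 * g3.1) := mul_nonneg h2.le hdet
          linarith
        by_contra hcon
        push Not at hcon
        have := mul_pos (by linarith : 0 < -g2.2) hcon
        linarith
      · exact h
  · rcases le_or_gt 0 a.2 with h2 | h2
    · rcases hn' with h | h
      · right; left; exact c2 h1.le h
      · right; right; exact c3 h2 h
    · right; left
      refine c2 h1.le ?_
      rcases hn' with h | h
      · exact h
      · simp only [dt] at h hdet ⊢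
        have hpos : 0 < a.1 * g3.2 := mul_pos h1 hg3
        have hg31 : g3.1 < 0 := by
          by_contra hcon
          push Not at hcon
          have := mul_nonpos_of_nonpos_of_nonneg h2.le hcon
          linarith
        have k1 : (-g3.1) * (g2.1 * a.2 - g2.2 * a.1) ≤ 0 := by
          have e1 : (-g3.1) * (g2.1 * a.2 - g2.2 * a.1)
              = (a.1 * g3.2 - a.2 * g3.1) * g2.1 - a.1 * (g2.1 * g3.2 - g2.2 * g3.1) := by ring
          rw [e1]
          have h3 : (a.1 * g3.2 - a.2 * g3.1) * g2.1 ≤ 0 :=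
            mul_nonpos_of_nonpos_of_nonneg h hg2.le
          have h4 : 0 ≤ a.1 * (g2.1 * g3.2 - g2.2 * g3.1) := mul_nonneg h1.le hdet
          linarith
        by_contra hcon
        push Not at hcon
        have := mul_pos (by linarith : 0 < -g3.1) hcon
        linarith

/-- The standing facts on the three functionals. -/
structure Fr (A B : ℝ) (h : ℝ × ℝ → ℝ) (φ1 φ2 φ3 : ℝ × ℝ) : Prop where
  hA : 0 < A
  hB : 0 < B
  hadd : ∀ a b, h (a + b) ≤ h a + h b
  hsmul : ∀ t : ℝ, 0 ≤ t → ∀ a, h (t • a) = t * h a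
  h2 : ∀ a, pr a (1, 0) ≤ h a
  h3 : ∀ a, pr a (0, 1) ≤ h a
  hD2 : ∀ a, pr a (A, 1 + B) ≤ h a + h (-a)
  hD3 : ∀ a, pr a (-(1 + A), -B) ≤ h a + h (-a)
  n1 : pr φ1 (1, -1) = 1
  n2 : pr φ2 (A, 1 + B) = 1
  n3 : pr φ3 (-(1 + A), -B) = 1
  w1 : h φ1 + h (-φ1) = 1
  w2 : h φ2 + h (-φ2) = 1
  w3 : h φ3 + h (-φ3) = 1
  z12 : pr φ1 (A, 1 + B) < 0
  z13 : pr φ1 (-(1 + A), -B) < 0
  z21 : pr φ2 (1, -1) < 0
  z23 : pr φ2 (-(1 + A), -B) < 0
  z31 : pr φ3 (1, -1) < 0
  z32 : pr φ3 (A, 1 + B) < 0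

namespace Fr

variable {A B : ℝ} {h : ℝ × ℝ → ℝ} {φ1 φ2 φ3 : ℝ × ℝ}

lemma p11 (F : Fr A B h φ1 φ2 φ3) : 0 < φ1.1 := by
  have := F.n1; have := F.z13; have := F.hA; have := F.hB
  simp only [pr] at *
  by_contra hcon
  push Not at hcon
  nlinarith

lemma p12 (F : Fr A B h φ1 φ2 φ3) : φ1.2 < 0 := by
  have := F.n1; have := F.z12; have := F.hA; have := F.hB
  simp only [pr] at *
  by_contra hcon
  push Not at hcon
  nlinarith

lemma p22 (F : Fr A B h φ1 φ2 φ3) : 0 < φ2.2 := by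
  have := F.n2; have := F.z21; have := F.hA; have := F.hB
  simp only [pr] at *
  by_contra hcon
  push Not at hcon
  nlinarith

lemma p31 (F : Fr A B h φ1 φ2 φ3) : φ3.1 < 0 := by
  have := F.n3; have := F.z31; have := F.hA; have := F.hB
  simp only [pr] at *
  by_contra hcon
  push Not at hcon
  nlinarith

lemma u21 (F : Fr A B h φ1 φ2 φ3) : pr φ2 (-A, -B) = φ2.2 - 1 := by
  have := F.n2
  simp only [pr] at *
  linarith

lemma u31 (F : Fr A B h φ1 φ2 φ3) : pr φ3 (-A, -B) = φ3.1 + 1 := by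
  have := F.n3
  simp only [pr] at *
  linarith

lemma u21neg (F : Fr A B h φ1 φ2 φ3) : φ2.2 - 1 < 0 := by
  have := F.n2; have := F.z23; have := F.hA; have := F.hB; have := F.z21; have h22 := F.p22
  simp only [pr] at *
  rcases le_or_gt 0 φ2.1 with h | h
  · nlinarith
  · nlinarith

lemma u31pos (F : Fr A B h φ1 φ2 φ3) : 0 < φ3.1 + 1 := by
  have := F.n3; have := F.z32; have := F.hA; have := F.hB; have := F.z31; have h22 := F.p31
  simp only [pr] at *
  rcases le_or_gt φ3.2 0 with h | h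
  · nlinarith
  · nlinarith

lemma d12 (F : Fr A B h φ1 φ2 φ3) : 0 < dt φ1 φ2 := by
  have hA := F.hA; have hB := F.hB
  have e : (1 + A + B) * dt φ1 φ2
      = pr φ1 (1, -1) * pr φ2 (A, 1 + B) - pr φ1 (A, 1 + B) * pr φ2 (1, -1) := by
    simp only [pr, dt]; ring
  have e1 : pr φ1 (1, -1) + pr φ1 (A, 1 + B) + pr φ1 (-(1 + A), -B) = 0 := by
    simp only [pr]; ring
  have e2 : pr φ2 (1, -1) + pr φ2 (A, 1 + B) + pr φ2 (-(1 + A), -B) = 0 := by
    simp only [pr]; ring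
  rw [F.n1] at e1 e
  rw [F.n2] at e2 e
  have b1 : -1 < pr φ1 (A, 1 + B) := by linarith [F.z13]
  have b2 : -1 < pr φ2 (1, -1) := by linarith [F.z23]
  have b3 := F.z12
  have b4 := F.z21
  have : pr φ1 (A, 1 + B) * pr φ2 (1, -1) < 1 := by nlinarith
  have h5 : 0 < (1 + A + B) * dt φ1 φ2 := by rw [e]; linarith
  exact (mul_pos_iff_of_pos_left (by linarith)).mp h5

lemma d23 (F : Fr A B h φ1 φ2 φ3) : 0 < dt φ2 φ3 := by
  have hA := F.hA; have hB := F.hB
  have e : (1 + A + B) * dt φ2 φ3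
      = pr φ2 (A, 1 + B) * pr φ3 (-(1 + A), -B) - pr φ2 (-(1 + A), -B) * pr φ3 (A, 1 + B) := by
    simp only [pr, dt]; ring
  have e1 : pr φ2 (1, -1) + pr φ2 (A, 1 + B) + pr φ2 (-(1 + A), -B) = 0 := by
    simp only [pr]; ring
  have e2 : pr φ3 (1, -1) + pr φ3 (A, 1 + B) + pr φ3 (-(1 + A), -B) = 0 := by
    simp only [pr]; ring
  rw [F.n2] at e1 e
  rw [F.n3] at e2 e
  have b1 : -1 < pr φ2 (-(1 + A), -B) := by linarith [F.z21]
  have b2 : -1 < pr φ3 (A, 1 + B) := by linarith [F.z31]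
  have b3 := F.z23
  have b4 := F.z32
  have : pr φ2 (-(1 + A), -B) * pr φ3 (A, 1 + B) < 1 := by nlinarith
  have h5 : 0 < (1 + A + B) * dt φ2 φ3 := by rw [e]; linarith
  exact (mul_pos_iff_of_pos_left (by linarith)).mp h5

lemma d31 (F : Fr A B h φ1 φ2 φ3) : 0 < dt φ3 φ1 := by
  have hA := F.hA; have hB := F.hB
  have e : (1 + A + B) * dt φ3 φ1
      = pr φ3 (-(1 + A), -B) * pr φ1 (1, -1) - pr φ3 (1, -1) * pr φ1 (-(1 + A), -B) := by
    simp only [pr, dt]; ring
  have e1 : pr φ3 (1, -1) + pr φ3 (A, 1 + B) + pr φ3 (-(1 + A), -B) = 0 := by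
    simp only [pr]; ring
  have e2 : pr φ1 (1, -1) + pr φ1 (A, 1 + B) + pr φ1 (-(1 + A), -B) = 0 := by
    simp only [pr]; ring
  rw [F.n3] at e1 e
  rw [F.n1] at e2 e
  have b1 : -1 < pr φ3 (1, -1) := by linarith [F.z32]
  have b2 : -1 < pr φ1 (-(1 + A), -B) := by linarith [F.z12]
  have b3 := F.z31
  have b4 := F.z13
  have : pr φ3 (1, -1) * pr φ1 (-(1 + A), -B) < 1 := by nlinarith
  have h5 : 0 < (1 + A + B) * dt φ3 φ1 := by rw [e]; linarith
  exact (mul_pos_iff_of_pos_left (by linarith)).mp h5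

/-- SG, first form -/
lemma sg3 (F : Fr A B h φ1 φ2 φ3) : h φ3 ≤ pr φ3 (-A, -B) := by
  rw [F.u31]
  have h1 := F.h2 (-φ3)
  have h2 := F.w3
  simp only [pr, Prod.fst_neg, Prod.snd_neg] at h1
  linarith

lemma sg2 (F : Fr A B h φ1 φ2 φ3) : h (-φ2) ≤ -pr φ2 (-A, -B) := by
  rw [F.u21]
  have h1 := F.h3 φ2
  have h2 := F.w2
  simp only [pr] at h1
  linarith

lemma sg (F : Fr A B h φ1 φ2 φ3) (l m : ℝ) (hl : 0 ≤ l) (hm : 0 ≤ m) :
    h (-(-(l • φ3) + m • φ2)) ≤ -pr (-(l • φ3) + m • φ2) (-A, -B) := by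
  have e : -(-(l • φ3) + m • φ2) = l • φ3 + m • (-φ2) := by
    ext <;> simp <;> ring
  have h1 := F.hadd (l • φ3) (m • (-φ2))
  rw [F.hsmul l hl, F.hsmul m hm] at h1
  rw [e]
  have h2 : l * h φ3 ≤ l * pr φ3 (-A, -B) := mul_le_mul_of_nonneg_left F.sg3 hl
  have h3 : m * h (-φ2) ≤ m * (-pr φ2 (-A, -B)) := mul_le_mul_of_nonneg_left F.sg2 hm
  rw [pr_add_left, pr_neg_left, pr_smul_left, pr_smul_left]
  linarith

/-- bounds U1, U2 for functionals in `cone (-φ3, φ2)` -/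
lemma cap_bounds (F : Fr A B h φ1 φ2 φ3) (s l m : ℝ) (hs0 : 0 ≤ s) (hl : 0 ≤ l)
    (hm : 0 ≤ m) (a p : ℝ × ℝ) (ha : a = -(l • φ3) + m • φ2)
    (hcap : pr a p ≤ h a + h (-a) + s * pr a (-A, -B)) :
    pr a p ≤ s * h a + (1 - s) * (h a + h (-a)) ∧ pr a p ≤ h a - (1 - s) * pr a (-A, -B) := by
  have h1 := F.sg l m hl hm
  rw [← ha] at h1
  have h2 : s * h (-a) ≤ s * (-pr a (-A, -B)) := mul_le_mul_of_nonneg_left h1 hs0
  constructor <;> linarith

lemma cap3 (F : Fr A B h φ1 φ2 φ3) (s : ℝ) (p : ℝ × ℝ)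
    (hcap : ∀ l m : ℝ, 0 ≤ l → 0 ≤ m →
      pr (-(l • φ3) + m • φ2) p ≤ h (-(l • φ3) + m • φ2) + h (-(-(l • φ3) + m • φ2))
        + s * pr (-(l • φ3) + m • φ2) (-A, -B)) :
    pr (-φ3) p ≤ 1 - s * (φ3.1 + 1) := by
  have h1 := hcap 1 0 zero_le_one le_rfl
  have e : -((1 : ℝ) • φ3) + (0 : ℝ) • φ2 = -φ3 := by
    ext <;> simp
  rw [e, neg_neg] at h1
  have h2 := F.w3
  have h3 := F.u31
  rw [pr_neg_left _ (-A, -B), h3] at h1
  linarith

lemma cap2 (F : Fr A B h φ1 φ2 φ3) (s : ℝ) (p : ℝ × ℝ)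
    (hcap : ∀ l m : ℝ, 0 ≤ l → 0 ≤ m →
      pr (-(l • φ3) + m • φ2) p ≤ h (-(l • φ3) + m • φ2) + h (-(-(l • φ3) + m • φ2))
        + s * pr (-(l • φ3) + m • φ2) (-A, -B)) :
    pr φ2 p ≤ 1 + s * (φ2.2 - 1) := by
  have h1 := hcap 0 1 le_rfl zero_le_one
  have e : -((0 : ℝ) • φ3) + (1 : ℝ) • φ2 = φ2 := by
    ext <;> simp
  rw [e] at h1
  have h2 := F.w2
  have h3 := F.u21
  rw [h3] at h1
  linarith

/-- U1 and U2 for core functionals. -/
lemma core_bounds (F : Fr A B h φ1 φ2 φ3) (s : ℝ) (hs1 : s ≤ 1) (hs0 : 0 ≤ s)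
    (l m l' m' : ℝ) (hl : 0 ≤ l) (hm : 0 ≤ m) (hl' : 0 ≤ l') (hm' : 0 ≤ m')
    (g2 g3 : ℝ × ℝ) (hg2 : g2 = l • φ1 - m • φ3) (hg3 : g3 = l' • φ2 - m' • φ1)
    (p a : ℝ × ℝ)
    (hcap : ∀ l m : ℝ, 0 ≤ l → 0 ≤ m →
      pr (-(l • φ3) + m • φ2) p ≤ h (-(l • φ3) + m • φ2) + h (-(-(l • φ3) + m • φ2))
        + s * pr (-(l • φ3) + m • φ2) (-A, -B))
    (hw2 : pr g2 p ≤ s * g2.1) (hw3 : pr g3 p ≤ s * g3.2)
    (ha2 : 0 < dt g2 a) (ha3 : 0 < dt a g3) :
    pr a p ≤ s * h a + (1 - s) * (h a + h (-a)) ∧ pr a p ≤ h a - (1 - s) * pr a (-A, -B) := by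
  have hc3 := F.cap3 s p hcap
  have hc2 := F.cap2 s p hcap
  have k23 := F.d23
  have k31 := F.d31
  have k12 := F.d12
  rcases le_or_gt 0 (dt a (-φ3)) with hx | hx
  · -- region 1
    have e1 : dt g2 (-φ3) = l * dt φ3 φ1 := by
      rw [hg2]; simp only [dt, Prod.fst_sub, Prod.snd_sub, Prod.fst_neg, Prod.snd_neg,
        Prod.smul_fst, Prod.smul_snd, smul_eq_mul]; ring
    have hlpos : 0 < l := by
      rcases hl.eq_or_lt with h0 | h0
      · exfalso
        rw [← h0] at hg2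
        have e2 : dt g2 a = -(m * dt a (-φ3)) := by
          rw [hg2]; simp only [dt, Prod.fst_sub, Prod.snd_sub, Prod.fst_neg, Prod.snd_neg,
            Prod.smul_fst, Prod.smul_snd, smul_eq_mul]; ring
        rw [e2] at ha2
        have := mul_nonneg hm hx
        linarith
      · exact h0
    obtain ⟨la, mu, hla, hmu, hae⟩ := cone_mem' g2 a (-φ3) ha2.le hx (by rw [e1]; positivity)
    have v1 : pr a p = la * pr g2 p + mu * pr (-φ3) p := by
      rw [hae, pr_add_left, pr_smul_left, pr_smul_left]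
    have v2 : a.1 = la * g2.1 - mu * φ3.1 := by
      rw [hae]; simp; ring
    have v3 : pr a (1 + A, B) = la * pr g2 (1 + A, B) + mu * pr (-φ3) (1 + A, B) := by
      rw [hae, pr_add_left, pr_smul_left, pr_smul_left]
    have v4 : pr (-φ3) (1 + A, B) = 1 := by
      have := F.n3
      simp only [pr, Prod.fst_neg, Prod.snd_neg] at *
      linarith
    have v5 : 0 ≤ pr g2 (1 + A, B) := by
      have e : pr g2 (1 + A, B) = l * (-pr φ1 (-(1 + A), -B)) + m * pr (-φ3) (1 + A, B) := by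
        rw [hg2]; simp only [pr, Prod.fst_sub, Prod.snd_sub, Prod.fst_neg, Prod.snd_neg,
          Prod.smul_fst, Prod.smul_snd, smul_eq_mul]; ring
      rw [e, v4]
      have := F.z13
      have : 0 ≤ l * (-pr φ1 (-(1 + A), -B)) := mul_nonneg hl (by linarith)
      linarith
    have v6 : mu ≤ pr a (1 + A, B) := by
      rw [v3, v4]
      have := mul_nonneg hla v5
      linarith
    have v7 : pr a (1 + A, B) ≤ h a + h (-a) := by
      have h1 := F.hD3 (-a)
      rw [neg_neg] at h1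
      simp only [pr, Prod.fst_neg, Prod.snd_neg] at *
      linarith
    have v8 : pr a p ≤ s * a.1 + (1 - s) * mu := by
      have b1 : la * pr g2 p ≤ la * (s * g2.1) := mul_le_mul_of_nonneg_left hw2 hla
      have b2 : mu * pr (-φ3) p ≤ mu * (1 - s * (φ3.1 + 1)) := mul_le_mul_of_nonneg_left hc3 hmu
      rw [v1, v2]; linarith
    have v9 := F.h2 a
    simp only [pr] at v9
    have v10 : pr a (1 + A, B) = a.1 - pr a (-A, -B) := by simp only [pr]; ring
    constructor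
    · have b3 : (1 - s) * mu ≤ (1 - s) * (h a + h (-a)) :=
        mul_le_mul_of_nonneg_left (by linarith) (by linarith)
      have b4 : s * a.1 ≤ s * h a := mul_le_mul_of_nonneg_left (by linarith) hs0
      linarith
    · have b3 : (1 - s) * mu ≤ (1 - s) * (a.1 - pr a (-A, -B)) :=
        mul_le_mul_of_nonneg_left (by linarith) (by linarith)
      linarith
  · rcases le_or_gt 0 (dt a φ2) with hy | hy
    · -- region 2
      have e1 : dt (-φ3) φ2 = dt φ2 φ3 := by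
        simp only [dt, Prod.fst_neg, Prod.snd_neg]; ring
      have e2 : dt (-φ3) a = -dt a (-φ3) := by
        simp only [dt, Prod.fst_neg, Prod.snd_neg]; ring
      obtain ⟨la, mu, hla, hmu, hae⟩ := cone_mem' (-φ3) a φ2 (by rw [e2]; linarith) hy
        (by rw [e1]; exact k23)
      have hae' : a = -(la • φ3) + mu • φ2 := by rw [hae]; simp
      have h1 := hcap la mu hla hmu
      rw [← hae'] at h1
      exact F.cap_bounds s la mu hs0 hla hmu a p hae' h1
    · -- region 3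
      have e1 : dt φ2 g3 = m' * dt φ1 φ2 := by
        rw [hg3]; simp only [dt, Prod.fst_sub, Prod.snd_sub,
          Prod.smul_fst, Prod.smul_snd, smul_eq_mul]; ring
      have hm'pos : 0 < m' := by
        rcases hm'.eq_or_lt with h0 | h0
        · exfalso
          rw [← h0] at hg3
          have e2 : dt a g3 = l' * dt a φ2 := by
            rw [hg3]; simp only [dt, Prod.fst_sub, Prod.snd_sub,
              Prod.smul_fst, Prod.smul_snd, smul_eq_mul]; ring
          rw [e2] at ha3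
          have := mul_nonpos_of_nonneg_of_nonpos hl' hy.le
          linarith
        · exact h0
      have e3 : dt φ2 a = -dt a φ2 := by simp only [dt]; ring
      obtain ⟨la, mu, hla, hmu, hae⟩ := cone_mem' φ2 a g3 (by rw [e3]; linarith) ha3.le
        (by rw [e1]; positivity)
      have v1 : pr a p = la * pr φ2 p + mu * pr g3 p := by
        rw [hae, pr_add_left, pr_smul_left, pr_smul_left]
      have v2 : a.2 = la * φ2.2 + mu * g3.2 := by
        rw [hae]; simp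
      have v3 : pr a (A, 1 + B) = la * pr φ2 (A, 1 + B) + mu * pr g3 (A, 1 + B) := by
        rw [hae, pr_add_left, pr_smul_left, pr_smul_left]
      have v4 := F.n2
      have v5 : 0 ≤ pr g3 (A, 1 + B) := by
        have e : pr g3 (A, 1 + B) = l' * pr φ2 (A, 1 + B) + m' * (-pr φ1 (A, 1 + B)) := by
          rw [hg3]; simp only [pr, Prod.fst_sub, Prod.snd_sub,
            Prod.smul_fst, Prod.smul_snd, smul_eq_mul]; ring
        rw [e, v4]
        have := F.z12
        have : 0 ≤ m' * (-pr φ1 (A, 1 + B)) := mul_nonneg hm' (by linarith)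
        linarith
      have v6 : la ≤ pr a (A, 1 + B) := by
        rw [v3, v4]
        have := mul_nonneg hmu v5
        linarith
      have v7 := F.hD2 a
      have v8 : pr a p ≤ s * a.2 + (1 - s) * la := by
        have b1 : mu * pr g3 p ≤ mu * (s * g3.2) := mul_le_mul_of_nonneg_left hw3 hmu
        have b2 : la * pr φ2 p ≤ la * (1 + s * (φ2.2 - 1)) := mul_le_mul_of_nonneg_left hc2 hla
        rw [v1, v2]; linarith
      have v9 := F.h3 a
      simp only [pr] at v9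
      have v10 : pr a (A, 1 + B) = a.2 - pr a (-A, -B) := by simp only [pr]; ring
      constructor
      · have b3 : (1 - s) * la ≤ (1 - s) * (h a + h (-a)) :=
          mul_le_mul_of_nonneg_left (by linarith) (by linarith)
        have b4 : s * a.2 ≤ s * h a := mul_le_mul_of_nonneg_left (by linarith) hs0
        linarith
      · have b3 : (1 - s) * la ≤ (1 - s) * (a.2 - pr a (-A, -B)) :=
          mul_le_mul_of_nonneg_left (by linarith) (by linarith)
        linarith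

/-- the weak star inequality: `h ≥ 0` -/
lemma hnn (F : Fr A B h φ1 φ2 φ3)
    (hc3 : ∀ c : ℝ × ℝ, c.1 < 0 → c.2 < 0 → ∀ s : ℝ, 0 < s → s < 1 →
      ¬ (h c < (1 - s) * pr c (-A, -B) ∧ (1 - s) * pr c (-A, -B) < (2 * s - 1) * (-c.1) ∧
        (1 - s) * pr c (-A, -B) < (2 * s - 1) * (-c.2))) (c : ℝ × ℝ) : 0 ≤ h c := by
  have h2 := F.h2 c
  have h3 := F.h3 c
  simp only [pr] at h2 h3
  rcases le_or_gt 0 c.1 with h1 | h1
  · linarith
  rcases le_or_gt 0 c.2 with h4 | h4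
  · linarith
  by_contra hcon
  push Not at hcon
  obtain ⟨m, hm1, hm2, hm⟩ : ∃ m, m ≤ -c.1 ∧ m ≤ -c.2 ∧ 0 < m :=
    ⟨min (-c.1) (-c.2), min_le_left _ _, min_le_right _ _, lt_min (by linarith) (by linarith)⟩
  obtain ⟨k, hk⟩ : ∃ k, k = pr c (-A, -B) := ⟨_, rfl⟩
  have hkpos : 0 < k := by
    rw [hk]; simp only [pr]
    have := mul_pos_of_neg_of_neg h1 (by linarith [F.hA] : -A < 0)
    have := mul_pos_of_neg_of_neg h4 (by linarith [F.hB] : -B < 0)
    linarith
  obtain ⟨ep, hep⟩ : ∃ ep : ℝ, ep = m / (2 * (k + 2 * m)) := ⟨_, rfl⟩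
  have hden : 0 < 2 * (k + 2 * m) := by positivity
  have hep0 : 0 < ep := by rw [hep]; positivity
  have hepm : ep * (2 * (k + 2 * m)) = m := by rw [hep]; field_simp
  have hep1 : ep < 1 := by nlinarith
  have hlt : ep * k < (1 - 2 * ep) * m := by nlinarith
  have hep2 : 0 < 1 - 2 * ep := by
    by_contra hh
    push Not at hh
    have h5 : (1 - 2 * ep) * m ≤ 0 := mul_nonpos_of_nonpos_of_nonneg hh hm.le
    have h6 : 0 < ep * k := mul_pos hep0 hkpos
    linarith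
  refine hc3 c h1 h4 (1 - ep) (by linarith) (by linarith) ⟨?_, ?_, ?_⟩
  · rw [← hk]
    have : 0 < (1 - (1 - ep)) * k := by
      have := mul_pos hep0 hkpos
      linarith
    linarith
  · rw [← hk]
    have : (1 - 2 * ep) * m ≤ (1 - 2 * ep) * (-c.1) := mul_le_mul_of_nonneg_left hm1 hep2.le
    linarith
  · rw [← hk]
    have : (1 - 2 * ep) * m ≤ (1 - 2 * ep) * (-c.2) := mul_le_mul_of_nonneg_left hm2 hep2.le
    linarith

end Fr

end Pool.Agent.H30.Dol
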